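import Pool.Agent.GT.StmtsE

/-!
# Squad GT, row E_HGT: descent with heights
-/

set_option autoImplicit false

namespace Pool.Agent.GT.OF.H39

open Polynomial Pool.Agent.NJ Pool.Agent.GT.D Pool.Agent.GT.OF

noncomputable section

/-- descent in an abelian group -/
theorem descent {A : Type} [AddCommGroup A] (H : A → ℕ) (C : ℕ) (hC : 1 ≤ C)
    (hfin : ∀ B : ℕ, {a : A | H a ≤ B}.Finite)
    (htr : ∀ Q T : A, 2 • T = 0 → H (Q + T) ≤ C * H Q)
    (hdb : ∀ Q : A, H Q ^ 4 ≤ C * H (2 • Q))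
    (hdiv : ∀ Q : A, ∃ T Q' : A, 2 • T = 0 ∧ Q = T + 2 • Q') (Q₀ : A) :
    ∃ n : ℕ, 0 < n ∧ n • Q₀ = 0 := by
  choose tt ff ht hq using hdiv
  obtain ⟨B, hB⟩ : ∃ B, B = max (C * C) (H Q₀) := ⟨_, rfl⟩
  have hstep : ∀ Q, H Q ≤ B → H (ff Q) ≤ B := by
    intro Q hQ
    by_contra hcon
    push Not at hcon
    have h1 : 2 • ff Q = Q + tt Q := by
      have h2 := hq Q
      have h3 : tt Q + tt Q = 0 := by rw [← two_nsmul]; exact ht Q
      have h4 : Q + tt Q = (tt Q + tt Q) + 2 • ff Q := by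
        calc Q + tt Q = (tt Q + 2 • ff Q) + tt Q := congrArg (· + tt Q) h2
          _ = (tt Q + tt Q) + 2 • ff Q := by abel
      rw [h4, h3, zero_add]
    have h2 : H (ff Q) ^ 4 ≤ C * (C * B) := by
      calc H (ff Q) ^ 4 ≤ C * H (2 • ff Q) := hdb _
        _ = C * H (Q + tt Q) := by rw [h1]
        _ ≤ C * (C * H Q) := Nat.mul_le_mul_left _ (htr _ _ (ht Q))
        _ ≤ C * (C * B) := Nat.mul_le_mul_left _ (Nat.mul_le_mul_left _ hQ)
    have h3 : C * (C * B) ≤ B * B := by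
      rw [← mul_assoc]
      exact Nat.mul_le_mul_right _ (by rw [hB]; exact le_max_left _ _)
    have hB1 : 1 ≤ B := by
      rw [hB]
      exact le_trans (Nat.one_le_iff_ne_zero.2 (by positivity)) (le_max_left _ _)
    have h4 : B * B < H (ff Q) ^ 4 := by
      calc B * B < H (ff Q) * H (ff Q) := Nat.mul_lt_mul'' hcon hcon
        _ = H (ff Q) ^ 2 := by ring
        _ ≤ H (ff Q) ^ 4 := Nat.pow_le_pow_right (by omega) (by norm_num)
    omega
  have hit : ∀ k, H (ff^[k] Q₀) ≤ B := by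
    intro k
    induction k with
    | zero => rw [hB]; exact le_max_right _ _
    | succ k ih =>
      rw [Function.iterate_succ_apply']
      exact hstep _ ih
  -- pigeonhole
  have hmaps : Set.MapsTo (fun k : ℕ => ff^[k] Q₀) Set.univ {a : A | H a ≤ B} := fun k _ => hit k
  obtain ⟨i, -, j, -, hij, he⟩ := Set.infinite_univ.exists_ne_map_eq_of_mapsTo hmaps (hfin B)
  have h2k : ∀ (k : ℕ) (Q : A), 2 • Q = 2 ^ k • (2 • ff^[k] Q) := by
    intro k
    induction k with
    | zero => intro Q; simp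
    | succ k ih =>
      intro Q
      rw [ih Q, Function.iterate_succ_apply']
      obtain ⟨R, hR⟩ : ∃ R, R = ff^[k] Q := ⟨_, rfl⟩
      rw [← hR]
      have h1 : 2 • R = 2 • (2 • ff R) := by
        calc 2 • R = 2 • (tt R + 2 • ff R) := congrArg (2 • ·) (hq R)
          _ = _ := by rw [nsmul_add, ht R, zero_add]
      rw [pow_succ, mul_nsmul', ← h1]
  have key : ∀ i j : ℕ, i < j → ff^[i] Q₀ = ff^[j] Q₀ → ∃ n : ℕ, 0 < n ∧ n • Q₀ = 0 := by
    intro i j hlt he
    obtain ⟨R, hR⟩ : ∃ R, R = ff^[i] Q₀ := ⟨_, rfl⟩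
    have h1 : ff^[j - i] R = R := by
      rw [hR, ← Function.iterate_add_apply, Nat.sub_add_cancel hlt.le]
      exact he.symm
    have h2 := h2k (j - i) R
    rw [h1] at h2
    have h3 := h2k i Q₀
    rw [← hR] at h3
    have hpos : 2 ≤ 2 ^ (j - i) := by
      calc 2 = 2 ^ 1 := rfl
        _ ≤ 2 ^ (j - i) := Nat.pow_le_pow_right (by norm_num) (by omega)
    obtain ⟨m, hm⟩ : ∃ m, 2 ^ (j - i) = m + 1 := ⟨2 ^ (j - i) - 1, by omega⟩
    have h4 : m • (2 • R) = 0 := by
      rw [hm, add_nsmul, one_nsmul] at h2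
      exact (left_eq_add.1 (by rw [add_comm]; exact h2))
    refine ⟨m * 2, by omega, ?_⟩
    rw [mul_nsmul', h3, nsmul_left_comm, h4, nsmul_zero]
  rcases Nat.lt_or_gt_of_ne hij with h | h
  · exact key i j h he
  · exact key j i h he.symm

/-- Northcott -/
theorem ht_fin (B : ℕ) : {x : ℚ | Ht x ≤ B}.Finite := by
  have h1 : {x : ℚ | Ht x ≤ B} ⊆ (fun p : ℤ × ℕ => ((p.1 : ℚ) / p.2)) ''
      ((Set.Icc (-(B : ℤ)) B) ×ˢ (Set.Icc 0 B)) := by
    intro x hx
    have hx' : max x.num.natAbs x.den ≤ B := hx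
    refine ⟨(x.num, x.den), ⟨?_, ?_⟩, Rat.num_div_den x⟩
    · have := le_trans (le_max_left _ _) hx'
      simp only [Set.mem_Icc]
      omega
    · have := le_trans (le_max_right _ _) hx'
      simp only [Set.mem_Icc]
      omega
  exact ((Set.finite_Icc _ _).prod (Set.finite_Icc _ _)).image _ |>.subset h1

open Classical in
/-- the height of a point -/
def hh {W : WeierstrassCurve ℚ} (Q : W.toAffine.Point) : ℕ :=
  if h : ∃ x, HasX Q x then Ht h.choose else 1

theorem coprime_lin {f : ℚ[X]} {c : ℚ} (h : f.eval c ≠ 0) : IsCoprime f (X - C c) := by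
  apply IsCoprime.symm
  rw [(irreducible_X_sub_C c).coprime_iff_not_dvd, dvd_iff_isRoot]
  exact h

theorem e_hgt (hta : HtaStmt) (dup : DupStmt) (trt : TrtStmt) : HgtStmt := by
  intro W e he hD
  letI inst : DecidableEq ℚ := fun a b => Classical.propDecidable (a = b)
  obtain ⟨d1, d2, d3, d4, d5, d6, d7, d8⟩ := dup ℚ W e he
  have hne : ∀ i j, i ≠ j → e i - e j ≠ 0 := fun i j h => sub_ne_zero.2 (he.ne i j h)
  have hx : ∀ (Q : W.toAffine.Point) (x : ℚ), HasX Q x → hh Q = Ht x := by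
    intro Q x hQ
    have h : ∃ x, HasX Q x := ⟨x, hQ⟩
    rw [hh, dif_pos h]
    congr 1
    exact (d5 Q x hQ).2.2 _ h.choose_spec
  have h0 : hh (0 : W.toAffine.Point) = 1 := by
    rw [hh, dif_neg]
    rintro ⟨x, hx⟩
    exact d7 x hx
  have hpos : ∀ x : ℚ, 1 ≤ Ht x := fun x => le_trans x.pos (le_max_right _ _)
  have hhpos : ∀ Q : W.toAffine.Point, 1 ≤ hh Q := by
    intro Q
    by_cases hQ : Q = 0
    · rw [hQ, h0]
    · obtain ⟨x, hQx⟩ := d6 Q hQ
      rw [hx Q x hQx]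
      exact hpos x
  -- finiteness
  have hfin : ∀ B : ℕ, {Q : W.toAffine.Point | hh Q ≤ B}.Finite := by
    intro B
    have h1 : {Q : W.toAffine.Point | hh Q ≤ B} ⊆
        {0} ∪ ⋃ x ∈ {x : ℚ | Ht x ≤ B}, {Q : W.toAffine.Point | HasX Q x} := by
      intro Q hQ
      by_cases hQ0 : Q = 0
      · left; exact hQ0
      · right
        obtain ⟨x, hQx⟩ := d6 Q hQ0
        have h2 : Ht x ≤ B := by rw [← hx Q x hQx]; exact hQ
        exact Set.mem_biUnion h2 hQx
    refine Set.Finite.subset ((Set.finite_singleton 0).union ?_) h1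
    refine (ht_fin B).biUnion ?_
    intro x _
    by_cases hex : ∃ Q₀ : W.toAffine.Point, HasX Q₀ x
    · obtain ⟨Q₀, hQ₀⟩ := hex
      refine Set.Finite.subset ((Set.finite_singleton (-Q₀)).insert Q₀) ?_
      intro Q hQ
      rcases d4 Q Q₀ x hQ hQ₀ with h | h
      · left; exact h
      · right; exact h
    · have : {Q : W.toAffine.Point | HasX Q x} = ∅ := by
        ext Q
        simp only [Set.mem_setOf_eq, Set.mem_empty_iff_false, iff_false]
        intro h
        exact hex ⟨Q, h⟩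
      rw [this]
      exact Set.finite_empty
  -- duplication
  obtain ⟨bg, hbg⟩ : ∃ bg, bg = (e 0 - e 1) * (e 0 - e 2) := ⟨_, rfl⟩
  obtain ⟨g, hg⟩ : ∃ g : ℚ[X], g = C 4 * ((X - C (e 0)) * (X - C (e 1)) * (X - C (e 2))) :=
    ⟨_, rfl⟩
  obtain ⟨f, hf⟩ : ∃ f : ℚ[X], f = ((X - C (e 0)) ^ 2 - C bg) ^ 2 + C (e 0) * g := ⟨_, rfl⟩
  have hgx : ∀ x, g.eval x = 4 * ((x - e 0) * (x - e 1) * (x - e 2)) := by
    intro x; rw [hg]; simp
  have hfx : ∀ x, f.eval x = ((x - e 0) ^ 2 - bg) ^ 2 + e 0 * g.eval x := by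
    intro x; rw [hf]; simp
  have h01 := hne 0 1 (by decide)
  have h02 := hne 0 2 (by decide)
  have h10 := hne 1 0 (by decide)
  have h12 := hne 1 2 (by decide)
  have h20 := hne 2 0 (by decide)
  have h21 := hne 2 1 (by decide)
  have hcop : IsCoprime f g := by
    have c0 : IsCoprime f (X - C (e 0)) := by
      apply coprime_lin
      rw [hfx, hgx, hbg]
      have : ((e 0 - e 0) ^ 2 - (e 0 - e 1) * (e 0 - e 2)) ^ 2 +
          e 0 * (4 * ((e 0 - e 0) * (e 0 - e 1) * (e 0 - e 2))) =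
          ((e 0 - e 1) * (e 0 - e 2)) ^ 2 := by ring
      rw [this]
      exact pow_ne_zero _ (mul_ne_zero h01 h02)
    have c1 : IsCoprime f (X - C (e 1)) := by
      apply coprime_lin
      rw [hfx, hgx, hbg]
      have : ((e 1 - e 0) ^ 2 - (e 0 - e 1) * (e 0 - e 2)) ^ 2 +
          e 0 * (4 * ((e 1 - e 0) * (e 1 - e 1) * (e 1 - e 2))) =
          ((e 1 - e 0) * (e 1 - e 2)) ^ 2 := by ring
      rw [this]
      exact pow_ne_zero _ (mul_ne_zero h10 h12)
    have c2 : IsCoprime f (X - C (e 2)) := by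
      apply coprime_lin
      rw [hfx, hgx, hbg]
      have : ((e 2 - e 0) ^ 2 - (e 0 - e 1) * (e 0 - e 2)) ^ 2 +
          e 0 * (4 * ((e 2 - e 0) * (e 2 - e 1) * (e 2 - e 2))) =
          ((e 2 - e 0) * (e 2 - e 1)) ^ 2 := by ring
      rw [this]
      exact pow_ne_zero _ (mul_ne_zero h20 h21)
    have c4 : IsCoprime f (C 4) := by
      refine ⟨0, C (1 / 4), ?_⟩
      rw [zero_mul, zero_add, ← C_mul]
      norm_num
    rw [hg]
    exact c4.mul_right ((c0.mul_right c1).mul_right c2)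
  have hgd : g.natDegree = 3 := by
    rw [hg]
    compute_degree!
  have hfd : f.natDegree = 4 := by
    have h1 : (((X - C (e 0)) ^ 2 - C bg) ^ 2 : ℚ[X]).natDegree = 4 := by
      rw [natDegree_pow]
      have : ((X - C (e 0)) ^ 2 - C bg : ℚ[X]).natDegree = 2 := by compute_degree!
      rw [this]
    have h2 : (C (e 0) * g).natDegree ≤ 3 := le_trans (natDegree_C_mul_le _ _) hgd.le
    rw [hf, natDegree_add_eq_left_of_natDegree_lt (by rw [h1]; omega), h1]
  have hmax : max f.natDegree g.natDegree = 4 := by rw [hfd, hgd]; rfl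
  obtain ⟨C₁, hC₁, hH₁⟩ := hta f g hcop (by rw [hmax]; norm_num)
  rw [hmax] at hH₁
  -- translations
  have htrl : ∀ j : Fin 3, ∃ K : ℕ, 0 < K ∧ ∀ x : ℚ, x - e j ≠ 0 → ∀ x' : ℚ,
      (x' - e j) * (x - e j) = (e j - e (j + 1)) * (e j - e (j + 2)) → Ht x' ≤ K * Ht x := by
    intro j
    have hj1 : j ≠ j + 1 := by revert j; decide
    have hj2 : j ≠ j + 2 := by revert j; decide
    obtain ⟨b, hb⟩ : ∃ b, b = (e j - e (j + 1)) * (e j - e (j + 2)) := ⟨_, rfl⟩
    have hb0 : b ≠ 0 := by rw [hb]; exact mul_ne_zero (hne _ _ hj1) (hne _ _ hj2)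
    have hcj : IsCoprime (C (e j) * (X - C (e j)) + C b) (X - C (e j)) := by
      apply coprime_lin
      simpa using hb0
    have hd1 : (X - C (e j)).natDegree = 1 := natDegree_X_sub_C _
    have hd2 : (C (e j) * (X - C (e j)) + C b).natDegree ≤ 1 := by compute_degree
    have hm : max (C (e j) * (X - C (e j)) + C b).natDegree (X - C (e j)).natDegree = 1 := by
      rw [hd1]
      exact max_eq_right hd2
    obtain ⟨K, hK, hHK⟩ := hta _ _ hcj (by rw [hm])
    rw [hm] at hHK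
    refine ⟨K, hK, ?_⟩
    intro x hx x' hx'
    have h1 := (hHK x (by simpa using hx)).2
    have h2 : (C (e j) * (X - C (e j)) + C b).eval x / (X - C (e j)).eval x = x' := by
      simp only [eval_add, eval_mul, eval_C, eval_sub, eval_X]
      rw [div_eq_iff hx, hb, ← hx']
      ring
    rw [h2, pow_one] at h1
    exact h1
  choose K hK hHK using htrl
  obtain ⟨M, hM⟩ : ∃ M, M = Ht (e 0) + Ht (e 1) + Ht (e 2) := ⟨_, rfl⟩
  have hMi : ∀ i, Ht (e i) ≤ M := by
    intro i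
    rw [hM]
    fin_cases i
    · change Ht (e 0) ≤ _; omega
    · change Ht (e 1) ≤ _; omega
    · change Ht (e 2) ≤ _; omega
  obtain ⟨CC, hCC⟩ : ∃ CC, CC = C₁ + M ^ 4 + M + K 0 + K 1 + K 2 + 1 := ⟨_, rfl⟩
  have hKi : ∀ i, K i ≤ CC := by
    intro i
    rw [hCC]
    fin_cases i
    · change K 0 ≤ _; omega
    · change K 1 ≤ _; omega
    · change K 2 ≤ _; omega
  intro Q
  refine descent hh CC (by omega) hfin ?_ ?_ hD Q
  · intro Q T hT
    by_cases hT0 : T = 0
    · rw [hT0, add_zero]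
      exact Nat.le_mul_of_pos_left _ (by omega)
    obtain ⟨xt, hxt⟩ := d6 T hT0
    obtain ⟨j, hj⟩ := (d1 T xt hxt).1 hT
    rw [hj] at hxt
    by_cases hQ0 : Q = 0
    · rw [hQ0, zero_add, h0, hx T _ hxt, mul_one]
      exact le_trans (hMi j) (by omega)
    obtain ⟨x, hQx⟩ := d6 Q hQ0
    by_cases hxj : x = e j
    · have hQT : Q + T = 0 := by
        rw [hxj] at hQx
        rcases d4 Q T (e j) hQx hxt with h | h
        · rw [h, ← two_nsmul]; exact hT
        · rw [h, neg_add_cancel]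
      rw [hQT, h0]
      exact Nat.one_le_iff_ne_zero.2 (Nat.mul_ne_zero (by omega) (by have := hhpos Q; omega))
    · obtain ⟨x', hx', heq⟩ := trt ℚ W e he T Q j x hxt hQx hxj
      rw [hx _ _ hx', hx Q x hQx]
      exact le_trans (hHK j x (sub_ne_zero.2 hxj) x' heq) (Nat.mul_le_mul_right _ (hKi j))
  · intro Q
    by_cases h2Q : 2 • Q = 0
    · rw [h2Q, h0, mul_one]
      by_cases hQ0 : Q = 0
      · rw [hQ0, h0]
        omega
      · obtain ⟨x, hQx⟩ := d6 Q hQ0
        obtain ⟨j, hj⟩ := (d1 Q x hQx).1 h2Q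
        rw [hx Q x hQx, hj]
        exact le_trans (Nat.pow_le_pow_left (hMi j) 4) (by omega)
    · have hQ0 : Q ≠ 0 := by
        rintro rfl
        exact h2Q (nsmul_zero 2)
      obtain ⟨x, hQx⟩ := d6 Q hQ0
      obtain ⟨x', hx', heq⟩ := d2 Q x hQx h2Q
      have hxr : ∀ i, x ≠ e i := fun i h => h2Q ((d1 Q x hQx).2 ⟨i, h⟩)
      have hg0 : g.eval x ≠ 0 := by
        rw [hgx]
        exact mul_ne_zero (by norm_num) (mul_ne_zero (mul_ne_zero (sub_ne_zero.2 (hxr 0))
          (sub_ne_zero.2 (hxr 1))) (sub_ne_zero.2 (hxr 2)))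
      have h1 := (hH₁ x hg0).1
      have h2 : f.eval x / g.eval x = x' := by
        rw [div_eq_iff hg0, hfx]
        have h3 := heq 0
        change (x' - e 0) * (4 * ((x - e 0) * (x - e 1) * (x - e 2))) =
          ((x - e 0) ^ 2 - (e 0 - e 1) * (e 0 - e 2)) ^ 2 at h3
        rw [← hgx, ← hbg] at h3
        linear_combination -h3
      rw [h2] at h1
      rw [hx _ _ hx', hx Q x hQx]
      exact le_trans h1 (Nat.mul_le_mul_right _ (by omega))

end

end Pool.Agent.GT.OF.H39
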